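import Pool.Agent.Y740.Z.Stm

/-!
# Primes at which the relative degree drops
-/

set_option autoImplicit false

open Finset Polynomial Module IntermediateField

namespace Pool.Agent.Y394.ZF

section

variable {L W : Type*} [Field L] [Field W] [Algebra L W] [FiniteDimensional L W]

theorem mem_of_coprime {α : W} (h0 : α ≠ 0) (F : IntermediateField L W) {m n : ℕ}
    (hmn : Nat.Coprime m n) (hm : α ^ m ∈ F) (hn : α ^ n ∈ F) : α ∈ F := by
  have h1 := Nat.gcd_eq_gcd_ab m n
  rw [hmn] at h1
  have h2 : α = (α ^ m) ^ (Nat.gcdA m n) * (α ^ n) ^ (Nat.gcdB m n) := by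
    rw [← zpow_natCast α m, ← zpow_natCast α n, ← zpow_mul, ← zpow_mul, ← zpow_add₀ h0, ← h1]
    simp
  rw [h2]
  exact mul_mem (zpow_mem hm _) (zpow_mem hn _)

theorem two_mul_finrank_le {E F : IntermediateField L W} (h : E < F) :
    2 * finrank L E ≤ finrank L F := by
  obtain ⟨k, hk⟩ := IntermediateField.finrank_dvd_of_le_right h.le
  have hpos : 0 < finrank L F := finrank_pos
  have hpos' : 0 < finrank L E := finrank_pos
  have h1 : k ≠ 0 := by rintro rfl; omega
  have h2 : k ≠ 1 := by
    rintro rfl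
    exact h.ne (IntermediateField.eq_of_le_of_finrank_eq h.le (by omega))
  have : 2 ≤ k := by omega
  nlinarith

theorem two_pow_bad {α : W} (h0 : α ≠ 0) (B : Finset ℕ) (hB : ∀ p ∈ B, p.Prime)
    (hbad : ∀ p ∈ B, α ∉ adjoin L {α ^ p}) :
    2 ^ B.card * finrank L (adjoin L {α ^ (∏ p ∈ B, p)}) ≤ finrank L (adjoin L {α}) := by
  classical
  induction B using Finset.induction_on with
  | empty =>
    rw [Finset.card_empty, pow_zero, one_mul, Finset.prod_empty, pow_one]
  | insert p B hp ih =>
    have ih' := ih (fun q hq => hB q (Finset.mem_insert_of_mem hq))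
      (fun q hq => hbad q (Finset.mem_insert_of_mem hq))
    set P := ∏ q ∈ B, q with hP
    have hcop : Nat.Coprime P p := by
      rw [hP]
      apply Nat.Coprime.prod_left
      intro q hq
      rw [Nat.coprime_primes (hB q (Finset.mem_insert_of_mem hq)) (hB p (Finset.mem_insert_self _ _))]
      rintro rfl
      exact hp hq
    have hlt : adjoin L {α ^ (p * P)} < adjoin L {α ^ P} := by
      rw [lt_iff_le_not_ge]
      constructor
      · rw [adjoin_simple_le_iff, mul_comm, pow_mul]
        exact pow_mem (mem_adjoin_simple_self L _) p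
      · intro hle
        rw [adjoin_simple_le_iff] at hle
        have h1 : adjoin L {α ^ (p * P)} ≤ adjoin L {α ^ p} := by
          rw [adjoin_simple_le_iff, pow_mul]
          exact pow_mem (mem_adjoin_simple_self L _) P
        have h2 : α ∈ adjoin L {α ^ p} :=
          mem_of_coprime h0 _ hcop (h1 hle) (mem_adjoin_simple_self L _)
        exact hbad p (Finset.mem_insert_self _ _) h2
    have h3 := two_mul_finrank_le hlt
    rw [Finset.card_insert_of_notMem hp, Finset.prod_insert hp, ← hP, pow_succ]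
    calc 2 ^ B.card * 2 * finrank L (adjoin L {α ^ (p * P)})
        = 2 ^ B.card * (2 * finrank L (adjoin L {α ^ (p * P)})) := by ring
      _ ≤ 2 ^ B.card * finrank L (adjoin L {α ^ P}) := Nat.mul_le_mul_left _ h3
      _ ≤ _ := ih'

theorem bad {α : W} (h0 : α ≠ 0) (B : Finset ℕ) (hB : ∀ p ∈ B, p.Prime)
    (hbad : ∀ p ∈ B, (minpoly L (α ^ p)).natDegree ≠ (minpoly L α).natDegree) :
    2 ^ B.card ≤ (minpoly L α).natDegree := by
  have hd : ∀ β : W, finrank L (adjoin L {β}) = (minpoly L β).natDegree := fun β =>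
    adjoin.finrank (IsIntegral.of_finite L β)
  have hbad' : ∀ p ∈ B, α ∉ adjoin L {α ^ p} := by
    intro p hp hmem
    apply hbad p hp
    rw [← hd, ← hd]
    have h1 : adjoin L {α ^ p} = adjoin L {α} := by
      apply le_antisymm
      · rw [adjoin_simple_le_iff]
        exact pow_mem (mem_adjoin_simple_self L _) p
      · rw [adjoin_simple_le_iff]
        exact hmem
    rw [h1]
  have h := two_pow_bad h0 B hB hbad'
  have h1 : 0 < finrank L (adjoin L {α ^ (∏ p ∈ B, p)}) := finrank_pos
  rw [← hd]
  calc 2 ^ B.card = 2 ^ B.card * 1 := by ring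
    _ ≤ _ := Nat.mul_le_mul_left _ h1
    _ ≤ _ := h

end

theorem t_BAD : Pool.Agent.Y740.Z.S_BAD := by
  intro W _ _ L α h0 B hB hbad
  exact bad h0 B hB hbad

end Pool.Agent.Y394.ZF
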